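import Pool.Agent.Work.MP_156542_lc.Proof

/-!
# First-order correspondence does not transfer from Kripke frames to full possibility frames

For every nonempty index set `I` there is a modal formula which has a first-order correspondent
over Kripke frames, but no first-order correspondent over full possibility frames.
-/

set_option autoImplicit false

namespace Pool.Agent.Results.MP_156542_lc.NoTransfer

open Pool.Agent.Work.MP_156542_lc

universe u v

/-- For every nonempty `I` some modal formula has a first-order correspondent over Kripke frames
(with carriers in any universe `v`) but none over full possibility frames (not even when only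
frames with carrier in `Type` are considered). -/
theorem result (I : Type u) [Nonempty I] :
    ∃ φ : Form I,
      (∃ α : (kripkeLang I).Sentence,
        ∀ F : KripkeFrame.{u, v} I, F.Valid φ ↔ F.Models α) ∧
      ¬ ∃ α : (possLang I).Sentence,
        ∀ F : FullPossibilityFrame.{u, 0} I, F.Valid φ ↔ F.Models α := by
  obtain ⟨i⟩ := ‹Nonempty I›
  exact ⟨wit i, ⟨kSent i, kripke_corr i⟩, poss_not_corr i⟩

end Pool.Agent.Results.MP_156542_lc.NoTransfer
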